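import Pool.Agent.J6H57.NEF.Eff

set_option autoImplicit false

/-!
# Multi-point Seshadri constants of nef divisors: the threshold `ρ + 20 √ρ` (Biran–Szemberg)

Let `X` be an integral projective surface over `ℂ` (arbitrary singularities are allowed) and `L` a
nef divisor on `X`.  Write `L = A - B` with `A, B` very ample; then `X ⊂ P^a × P^b` with
`A = O(1, 0)|_X`, `B = O(0, 1)|_X`.  We prove that the Seshadri constant of `L` at `n` very general
points is `√(L² / n)` for all `n ≥ ρ + 20 √ρ`, where `ρ = k² L²` and `|k L|` contains a good pencil,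
and that it is not attained by any curve if `n L²` is not a square; on normal (in particular, on
smooth) surfaces such a `k` always exists if `L² > 0`.

The order of the term `20 √ρ` is best possible (remark, not proved here): if `X` is the Hirzebruch
surface `F_ρ` and `L` the pull-back of `O(1)` from the cone over the rational normal curve of degree
`ρ`, then `k = 1`, and for `r² < ρ` the curves with `L · C = ρ + r` which pass through
`n = ρ + 2 r + 1` general points have `L · C / n < √(L² / n)`.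
-/

namespace Pool.Agent.Results.MP_ed661f_ag.NearOptimalThreshold

open MvPolynomial Filter Topology

/-- The index set of the variables `x_0, …, x_a, y_0, …, y_b`. -/
abbrev Index (a b : ℕ) : Type := Fin (a + 1) ⊕ Fin (b + 1)

/-- The bihomogeneous coordinate ring `ℂ[x_0, …, x_a, y_0, …, y_b]` of `P^a × P^b`. -/
abbrev Coord (a b : ℕ) : Type := MvPolynomial (Index a b) ℂ

/-- The variable `x_i`, of bidegree `(1, 0)`. -/
noncomputable abbrev xVar {a b : ℕ} (i : Fin (a + 1)) : Coord a b := X (Sum.inl i)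

/-- The variable `y_j`, of bidegree `(0, 1)`. -/
noncomputable abbrev yVar {a b : ℕ} (j : Fin (b + 1)) : Coord a b := X (Sum.inr j)

/-- The bidegrees of the variables. -/
def bidegree (a b : ℕ) : Index a b → ℕ × ℕ := Sum.elim (fun _ => (1, 0)) (fun _ => (0, 1))

/-- The vector space of the forms of bidegree `(u, v)`. -/
noncomputable def forms (a b u v : ℕ) : Submodule ℂ (Coord a b) :=
  weightedHomogeneousSubmodule ℂ (bidegree a b) (u, v)

variable {a b : ℕ}

/-- `P` is bihomogeneous: it contains the bihomogeneous components of its elements. -/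
def IsBihomogeneous (P : Ideal (Coord a b)) : Prop :=
  ∀ f ∈ P, ∀ d : ℕ × ℕ, weightedHomogeneousComponent (bidegree a b) d f ∈ P

/-- The projection `ℂ[x, y] → ℂ[x, y]/P`. -/
noncomputable def projection (P : Ideal (Coord a b)) : Coord a b →ₗ[ℂ] Coord a b ⧸ P :=
  (Ideal.Quotient.mkₐ ℂ P).toLinearMap

/-- The part of bidegree `(u, v)` of `ℂ[x, y]/P`. -/
noncomputable def piece (P : Ideal (Coord a b)) (u v : ℕ) : Submodule ℂ (Coord a b ⧸ P) :=
  (forms a b u v).map (projection P)

/-- The Hilbert function of `P`: the dimension of the part of bidegree `(u, v)` of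
`ℂ[x, y]/P`. -/
noncomputable def hilbertFunction (P : Ideal (Coord a b)) (u v : ℕ) : ℕ :=
  Module.finrank ℂ (piece P u v)

/-- `P` is the bihomogeneous prime ideal of an integral surface `X ⊂ P^a × P^b` with `A² = α`,
`A · B = β`, `B² = γ`, where `A = O(1, 0)|_X` and `B = O(0, 1)|_X`: by Riemann–Roch, for large
`u, v`, the Hilbert function is `(u A + v B)² / 2` up to terms of lower order, and this is required
along all rays `(p t, q t)`.  (As `A + B` is ample, `A² + 2 A · B + B² > 0`.) -/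
structure IsSurface (P : Ideal (Coord a b)) (α β γ : ℕ) : Prop where
  prime : P.IsPrime
  bihomogeneous : IsBihomogeneous P
  growth : ∀ p q : ℕ, 1 ≤ p → 1 ≤ q → Tendsto
    (fun t : ℕ => 2 * (hilbertFunction P (p * t) (q * t) : ℝ) / (t : ℝ) ^ 2) atTop
    (𝓝 ((α : ℝ) * p ^ 2 + 2 * β * p * q + γ * q ^ 2))
  pos : 0 < α + 2 * β + γ

/-- `Q` is the bihomogeneous prime ideal of an integral curve `C ⊂ P^a × P^b` with `A · C = dA`
and `B · C = dB`: for large `u, v` the Hilbert function is `(u A + v B) · C` up to a constant. -/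
structure IsCurve (Q : Ideal (Coord a b)) (dA dB : ℝ) : Prop where
  prime : Q.IsPrime
  bihomogeneous : IsBihomogeneous Q
  growth : ∀ p q : ℕ, 1 ≤ p → 1 ≤ q → Tendsto
    (fun t : ℕ => (hilbertFunction Q (p * t) (q * t) : ℝ) / (t : ℝ)) atTop
    (𝓝 (dA * p + dB * q))
  pos : 0 < dA + dB

/-- `L = A - B` is nef on `X`: `L · C = A · C - B · C ≥ 0` for all integral curves `C ⊂ X`. -/
def IsNef (P : Ideal (Coord a b)) : Prop :=
  ∀ (Q : Ideal (Coord a b)) (dA dB : ℝ), P ≤ Q → IsCurve Q dA dB → dB ≤ dA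

/-- The ideal of the affine chart `x_i = 1`, `y_j = 1` of the scheme of `P`. -/
noncomputable def chartIdeal (i : Fin (a + 1)) (j : Fin (b + 1)) (P : Ideal (Coord a b)) :
    Ideal (Coord a b) :=
  P ⊔ Ideal.span {xVar i - 1, yVar j - 1}

/-- `X` is normal: the coordinate rings of its affine charts are integrally closed.  (Every smooth
surface is normal.) -/
def IsNormal (P : Ideal (Coord a b)) : Prop :=
  ∀ i j, xVar i ∉ P → yVar j ∉ P → IsIntegrallyClosed (Coord a b ⧸ chartIdeal i j P)

/-- The maximal ideal of the point `w`. -/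
noncomputable def pointIdeal (w : Index a b → ℂ) : Ideal (Coord a b) :=
  Ideal.span (Set.range fun t => X t - C (w t))

/-- The length `dim(O_w / 𝔪_w^K)` of the local ring at `w` of the scheme of `Q`. -/
noncomputable def localLength (i : Fin (a + 1)) (j : Fin (b + 1)) (Q : Ideal (Coord a b))
    (w : Index a b → ℂ) (K : ℕ) : ℕ :=
  Module.finrank ℂ (Coord a b ⧸ (chartIdeal i j Q ⊔ pointIdeal w ^ K))

/-- `m` is the multiplicity at the point `w` (normalised by `x_i = 1`, `y_j = 1`) of the curve with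
ideal `Q`: the Hilbert–Samuel multiplicity `lim dim(O_w / 𝔪_w^K) / K` of its local ring at `w`
(it is `0` when `w` is not on the curve). -/
def IsMultiplicity (i : Fin (a + 1)) (j : Fin (b + 1)) (Q : Ideal (Coord a b))
    (w : Index a b → ℂ) (m : ℝ) : Prop :=
  Tendsto (fun K : ℕ => (localLength i j Q w K : ℝ) / K) atTop (𝓝 m)

/-- `w` lists `n` points of the chart `x_i = 1`, `y_j = 1` of `X`. -/
def IsChartTuple {n : ℕ} (i : Fin (a + 1)) (j : Fin (b + 1)) (P : Ideal (Coord a b))
    (w : Fin n → Index a b → ℂ) : Prop :=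
  ∀ q, w q (Sum.inl i) = 1 ∧ w q (Sum.inr j) = 1 ∧ ∀ F ∈ P, eval (w q) F = 0

/-- The value of a polynomial on `n`-tuples of points. -/
noncomputable def tupleValue {n : ℕ} (H : MvPolynomial (Fin n × Index a b) ℂ)
    (w : Fin n → Index a b → ℂ) : ℂ := eval (fun p => w p.1 p.2) H

/-- The `n`-tuple `w` of points of the chart of `X` lies outside the countably many closed subsets
`H k = 0`. -/
def IsVeryGeneral {n : ℕ} (i : Fin (a + 1)) (j : Fin (b + 1)) (P : Ideal (Coord a b))
    (H : ℕ → MvPolynomial (Fin n × Index a b) ℂ) (w : Fin n → Index a b → ℂ) : Prop :=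
  IsChartTuple i j P w ∧ ∀ k, tupleValue (H k) w ≠ 0

/-- The ratios `L · C / ∑ mult_{w_q} C`, where `L = A - B`, over the integral curves `C ⊂ X` through
at least one of the points `w q`.  The Seshadri constant `ε(X, L; w)` is the infimum of this
set. -/
def seshadriRatios {n : ℕ} (i : Fin (a + 1)) (j : Fin (b + 1))
    (P : Ideal (Coord a b)) (w : Fin n → Index a b → ℂ) : Set ℝ :=
  {x | ∃ (Q : Ideal (Coord a b)) (dA dB : ℝ) (m : Fin n → ℝ), P ≤ Q ∧ IsCurve Q dA dB ∧
    (∀ q, IsMultiplicity i j Q (w q) (m q)) ∧ 0 < ∑ q, m q ∧ x = (dA - dB) / ∑ q, m q}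

/-- **`ε(n; X, L) = √(δ / n)`**, for points of the chart `x_i = y_j = 1`: there are countably many
polynomials `H_k` on `n`-tuples of points such that some `n`-tuple of points of the chart has
`H_k ≠ 0` for all `k` (such tuples are called very general), and for every such `n`-tuple the points
are distinct, the Seshadri constant of `L` at these points, the infimum (greatest lower bound) of
`L · C / ∑ mult_{w_q} C` over the integral curves `C` through at least one of them, is `√(δ / n)`,
and it is not attained by any curve `C` if `δ n` is not a square. -/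
def SeshadriEquality (i : Fin (a + 1)) (j : Fin (b + 1)) (P : Ideal (Coord a b)) (δ n : ℕ) :
    Prop :=
  ∃ H : ℕ → MvPolynomial (Fin n × Index a b) ℂ,
    (∃ w, IsVeryGeneral i j P H w) ∧
    ∀ w, IsVeryGeneral i j P H w → Function.Injective w ∧
      IsGLB (seshadriRatios i j P w) (√((δ : ℝ) / n)) ∧
      (¬ IsSquare (δ * n) → √((δ : ℝ) / n) ∉ seshadriRatios i j P w)

/-- `K` is the function field of `X`, and `π` restricts the polynomials to the chart
`x_i = y_j = 1` of `X`. -/
structure IsFunctionField (i : Fin (a + 1)) (j : Fin (b + 1)) (P : Ideal (Coord a b))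
    {K : Type} [Field K] [Algebra ℂ K] (π : Coord a b →ₐ[ℂ] K) : Prop where
  kernel : ∀ f, π f = 0 ↔ f ∈ chartIdeal i j P
  fraction : ∀ z : K, ∃ f g, π g ≠ 0 ∧ z * π g = π f

section

variable {K : Type} [Field K] [Algebra ℂ K]

/-- The restrictions to the chart of the forms of bidegree `(u, v)`, i.e. `H⁰(u A + v B)` for
large `u, v`. -/
noncomputable def restricted (π : Coord a b →ₐ[ℂ] K) (u v : ℕ) : Submodule ℂ K :=
  (forms a b u v).map π.toLinearMap

/-- `ψ` (more precisely `ψ x_i^m y_j^{-m}`) is a global section of `m L = m A - m B`: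
multiplication by `ψ` maps `H⁰(c A + (c + m) B)` to `H⁰((c + m) A + c B)` for some `c`. -/
def IsSection (π : Coord a b →ₐ[ℂ] K) (m : ℕ) (ψ : K) : Prop :=
  ∃ c : ℕ, ∀ f ∈ restricted π c (c + m), ψ * f ∈ restricted π (c + m) c

/-- `g₁, g₂ ≠ 0` span a good pencil in `|k L|`: the only common zeros of `g₁` and `g₂` are
unavoidable ones (a rational section `ψ` of `m L` which becomes regular after multiplication by
`g₁`, and after multiplication by a power of `g₂`, is regular), `g₁ / g₂` is not constant and the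
general member is irreducible (`ℂ(g₁ / g₂)` is algebraically closed in the function field). -/
structure IsGoodPencil (π : Coord a b →ₐ[ℂ] K) (k : ℕ) (g₁ g₂ : K) : Prop where
  pos : 1 ≤ k
  section₁ : IsSection π k g₁
  section₂ : IsSection π k g₂
  ne_zero₁ : g₁ ≠ 0
  ne_zero₂ : g₂ ≠ 0
  base : ∀ m ψ, IsSection π (m + k) (g₁ * ψ) →
    (∃ N : ℕ, IsSection π (m + k * N) (g₂ ^ N * ψ)) → IsSection π m ψ
  nonconstant : Transcendental ℂ (g₁ / g₂)
  irreducible : ∀ z : K, IsAlgebraic (IntermediateField.adjoin ℂ {g₁ / g₂}) z →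
    z ∈ IntermediateField.adjoin ℂ {g₁ / g₂}

end

/-- **The Biran–Szemberg equality for all nef divisors, for all `n ≥ ρ + 20 √ρ`, `ρ = k² L²`.** Let
`X ⊂ P^a × P^b` be an integral surface such that `L = A - B` is nef.  Then
`L² = α - 2 β + γ ≥ 0`, some `x_i` and some `y_j` do not vanish on `X`, and for every chart
`x_i = y_j = 1` of `X`, if `L² > 0`:
* there are a function field and a restriction `π` to the chart;
* if `X` is normal, there is `k ≥ 1` such that `|k L|` contains a good pencil;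
* if `|k L|` contains a good pencil, then `ε(n; X, L) = √(L² / n)` for all
  `n ≥ k² L² + 20 √(k² L²)`, and this infimum is not attained by any curve if `n L²` is not a
  square. -/
theorem result {a b : ℕ} (P : Ideal (Coord a b)) (α β γ : ℕ) (hX : IsSurface P α β γ)
    (hnef : IsNef P) :
    2 * β ≤ α + γ ∧ (∃ i j, xVar i ∉ P ∧ yVar j ∉ P) ∧
    ∀ i j, xVar i ∉ P → yVar j ∉ P →
      (∃ (K : Type) (_ : Field K) (_ : Algebra ℂ K) (π : Coord a b →ₐ[ℂ] K),
        IsFunctionField i j P π) ∧
      ∀ (K : Type) [Field K] [Algebra ℂ K] (π : Coord a b →ₐ[ℂ] K), IsFunctionField i j P π →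
        2 * β < α + γ →
        (IsNormal P → ∃ (k : ℕ) (g₁ g₂ : K), IsGoodPencil π k g₁ g₂) ∧
        ∀ (k : ℕ) (g₁ g₂ : K), IsGoodPencil π k g₁ g₂ → ∀ n ρ : ℕ,
          ρ = k ^ 2 * (α + γ - 2 * β) → (ρ : ℝ) + 20 * √(ρ : ℝ) ≤ n →
          SeshadriEquality i j P (α + γ - 2 * β) n := by
  have hX' : Pool.Agent.TH279.GR.Surf P α β γ :=
    ⟨hX.prime, hX.bihomogeneous, hX.growth, by exact_mod_cast hX.pos⟩
  have hcurve : ∀ (Q : Ideal (Coord a b)) (dA dB : ℝ), Pool.Agent.TH279.GR.Curv Q dA dB ↔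
      IsCurve Q dA dB := fun Q dA dB =>
    ⟨fun h => ⟨h.prime, h.hom, h.growth, h.pos⟩,
      fun h => ⟨h.prime, h.bihomogeneous, h.growth, h.pos⟩⟩
  have hnef' : Pool.Agent.TH279.GR.Nef P := fun Q dA dB hPQ hQ =>
    hnef Q dA dB hPQ ((hcurve Q dA dB).1 hQ)
  have h0 := Pool.Agent.Y799.SE.sq_nonneg' hX' hnef'
  refine ⟨h0, Pool.Agent.TH306.N4.exists_ij hX', fun i j hi hj => ?_⟩
  have hset : ∀ {n : ℕ} (w : Fin n → Index a b → ℂ),
      seshadriRatios i j P w = Pool.Agent.TH306.N4.ratios i j P w := by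
    intro n w
    ext x
    constructor
    · rintro ⟨Q, dA, dB, m, hPQ, hQ, hm, h0, h⟩
      exact ⟨Q, dA, dB, m, hPQ, (hcurve Q dA dB).2 hQ, hm, h0, h⟩
    · rintro ⟨Q, dA, dB, m, hPQ, hQ, hm, h0, h⟩
      exact ⟨Q, dA, dB, m, hPQ, (hcurve Q dA dB).1 hQ, hm, h0, h⟩
  refine ⟨?_, fun K _ _ π hπ hL => ?_⟩
  · obtain ⟨K, _, _, π, hπ⟩ := Pool.Agent.TH611.M5.exists_Mod hX'.prime hX'.hom hi hj
    exact ⟨K, _, _, π, hπ.ker, hπ.frac⟩
  · have hM : Pool.Agent.TH306.N4.Mod P i j π :=
      ⟨hX.prime, hX.bihomogeneous, hi, hj, hπ.kernel, hπ.fraction⟩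
    have hδ : (α + γ - 2 * β) + 2 * β = α + γ := by omega
    have hδ1 : 1 ≤ α + γ - 2 * β := by omega
    refine ⟨fun hN => ?_, fun k g₁ g₂ hP n ρ hρ hn => ?_⟩
    · obtain ⟨k, g₁, g₂, hP⟩ := Pool.Agent.Y799.SE.exists_pencil hX' hN hnef' hδ hδ1 hM
      exact ⟨k, g₁, g₂, hP.hk, hP.sec₁, hP.sec₂, hP.ne₁, hP.ne₂, hP.sat, hP.tr, hP.closed⟩
    · have hP' : Pool.Agent.TH306.N4.Pencil π k g₁ g₂ :=
        ⟨hP.pos, hP.section₁, hP.section₂, hP.ne_zero₁, hP.ne_zero₂, hP.base, hP.nonconstant,
          hP.irreducible⟩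
      have hρ1 : 1 ≤ ρ := by
        rw [hρ]
        exact Nat.mul_pos (pow_pos hP.pos 2) hδ1
      have hn1 : 1 ≤ n := by
        have h1 : (1 : ℝ) ≤ ρ := by exact_mod_cast hρ1
        have h2 : 0 ≤ √(ρ : ℝ) := Real.sqrt_nonneg _
        have h3 : ((1 : ℕ) : ℝ) ≤ n := by push_cast; linarith
        exact_mod_cast h3
      have hPA := Pool.Agent.J6H8.VT.PA_main hρ1 hn
      rw [hρ] at hPA
      obtain ⟨H, h1, h2⟩ := Pool.Agent.J6H57.NEF.equality_of_PA hX' hnef' hδ hδ1 hi hj hM hP'
        hn1 hPA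
      refine ⟨H, h1, fun w hw => ?_⟩
      obtain ⟨h3, h4, h5⟩ := h2 w hw.1 hw.2
      rw [hset w]
      exact ⟨h3, h4, h5⟩

end Pool.Agent.Results.MP_ed661f_ag.NearOptimalThreshold
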