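import Pool.Agent.J6H77.WS.EqW
import Pool.Agent.J6H57.WS.Tor

set_option autoImplicit false

/-!
# Multi-point Seshadri constants of nef divisors with unequal weights

Let `X` be an integral projective surface over `ℂ` (arbitrary singularities are allowed) and `L` a
nef divisor on `X`.  Write `L = A - B` with `A, B` very ample; then `X ⊂ P^a × P^b` with
`A = O(1, 0)|_X`, `B = O(0, 1)|_X`.  For positive real weights `y_1, …, y_n` we consider the weighted
Seshadri constant, the infimum of `L · C / ∑ y_q mult_{w_q} C` over the curves `C`; it is the largest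
`t` such that `L - t ∑ y_q E_q` is nef on the blow-up of the points `w_q`.  We prove that it is
`√(L² / ∑ y_q²)` at very general points for all weights which are spread out; one very general set
serves all weights.  For equal weights this is the equality of Biran and Szemberg for all large
`n`.
-/

namespace Pool.Agent.Results.MP_ed661f_ag.WeightedPoints

open MvPolynomial Filter Topology

/-- The index set of the variables `x_0, …, x_a, y_0, …, y_b`. -/
abbrev Index (a b : ℕ) : Type := Fin (a + 1) ⊕ Fin (b + 1)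

/-- The bihomogeneous coordinate ring `ℂ[x_0, …, x_a, y_0, …, y_b]` of `P^a × P^b`. -/
abbrev Coord (a b : ℕ) : Type := MvPolynomial (Index a b) ℂ

/-- The variable `x_i`, of bidegree `(1, 0)`. -/
noncomputable abbrev xVar {a b : ℕ} (i : Fin (a + 1)) : Coord a b := X (Sum.inl i)

/-- The variable `y_j`, of bidegree `(0, 1)`. -/
noncomputable abbrev yVar {a b : ℕ} (j : Fin (b + 1)) : Coord a b := X (Sum.inr j)

/-- The bidegrees of the variables. -/
def bidegree (a b : ℕ) : Index a b → ℕ × ℕ := Sum.elim (fun _ => (1, 0)) (fun _ => (0, 1))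

/-- The vector space of the forms of bidegree `(u, v)`. -/
noncomputable def forms (a b u v : ℕ) : Submodule ℂ (Coord a b) :=
  weightedHomogeneousSubmodule ℂ (bidegree a b) (u, v)

variable {a b : ℕ}

/-- `P` is bihomogeneous: it contains the bihomogeneous components of its elements. -/
def IsBihomogeneous (P : Ideal (Coord a b)) : Prop :=
  ∀ f ∈ P, ∀ d : ℕ × ℕ, weightedHomogeneousComponent (bidegree a b) d f ∈ P

/-- The projection `ℂ[x, y] → ℂ[x, y]/P`. -/
noncomputable def projection (P : Ideal (Coord a b)) : Coord a b →ₗ[ℂ] Coord a b ⧸ P :=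
  (Ideal.Quotient.mkₐ ℂ P).toLinearMap

/-- The part of bidegree `(u, v)` of `ℂ[x, y]/P`. -/
noncomputable def piece (P : Ideal (Coord a b)) (u v : ℕ) : Submodule ℂ (Coord a b ⧸ P) :=
  (forms a b u v).map (projection P)

/-- The Hilbert function of `P`: the dimension of the part of bidegree `(u, v)` of
`ℂ[x, y]/P`. -/
noncomputable def hilbertFunction (P : Ideal (Coord a b)) (u v : ℕ) : ℕ :=
  Module.finrank ℂ (piece P u v)

/-- `P` is the bihomogeneous prime ideal of an integral surface `X ⊂ P^a × P^b` with `A² = α`,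
`A · B = β`, `B² = γ`, where `A = O(1, 0)|_X` and `B = O(0, 1)|_X`: by Riemann–Roch, for large
`u, v`, the Hilbert function is `(u A + v B)² / 2` up to terms of lower order, and this is required
along all rays `(p t, q t)`.  (As `A + B` is ample, `A² + 2 A · B + B² > 0`.) -/
structure IsSurface (P : Ideal (Coord a b)) (α β γ : ℕ) : Prop where
  prime : P.IsPrime
  bihomogeneous : IsBihomogeneous P
  growth : ∀ p q : ℕ, 1 ≤ p → 1 ≤ q → Tendsto
    (fun t : ℕ => 2 * (hilbertFunction P (p * t) (q * t) : ℝ) / (t : ℝ) ^ 2) atTop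
    (𝓝 ((α : ℝ) * p ^ 2 + 2 * β * p * q + γ * q ^ 2))
  pos : 0 < α + 2 * β + γ

/-- `Q` is the bihomogeneous prime ideal of an integral curve `C ⊂ P^a × P^b` with `A · C = dA`
and `B · C = dB`: for large `u, v` the Hilbert function is `(u A + v B) · C` up to a constant. -/
structure IsCurve (Q : Ideal (Coord a b)) (dA dB : ℝ) : Prop where
  prime : Q.IsPrime
  bihomogeneous : IsBihomogeneous Q
  growth : ∀ p q : ℕ, 1 ≤ p → 1 ≤ q → Tendsto
    (fun t : ℕ => (hilbertFunction Q (p * t) (q * t) : ℝ) / (t : ℝ)) atTop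
    (𝓝 (dA * p + dB * q))
  pos : 0 < dA + dB

/-- `L = A - B` is nef on `X`: `L · C = A · C - B · C ≥ 0` for all integral curves `C ⊂ X`. -/
def IsNef (P : Ideal (Coord a b)) : Prop :=
  ∀ (Q : Ideal (Coord a b)) (dA dB : ℝ), P ≤ Q → IsCurve Q dA dB → dB ≤ dA

/-- The ideal of the affine chart `x_i = 1`, `y_j = 1` of the scheme of `P`. -/
noncomputable def chartIdeal (i : Fin (a + 1)) (j : Fin (b + 1)) (P : Ideal (Coord a b)) :
    Ideal (Coord a b) :=
  P ⊔ Ideal.span {xVar i - 1, yVar j - 1}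

/-- `X` is normal: the coordinate rings of its affine charts are integrally closed.  (Every smooth
surface is normal.) -/
def IsNormal (P : Ideal (Coord a b)) : Prop :=
  ∀ i j, xVar i ∉ P → yVar j ∉ P → IsIntegrallyClosed (Coord a b ⧸ chartIdeal i j P)

/-- The maximal ideal of the point `w`. -/
noncomputable def pointIdeal (w : Index a b → ℂ) : Ideal (Coord a b) :=
  Ideal.span (Set.range fun t => X t - C (w t))

/-- The length `dim(O_w / 𝔪_w^K)` of the local ring at `w` of the scheme of `Q`. -/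
noncomputable def localLength (i : Fin (a + 1)) (j : Fin (b + 1)) (Q : Ideal (Coord a b))
    (w : Index a b → ℂ) (K : ℕ) : ℕ :=
  Module.finrank ℂ (Coord a b ⧸ (chartIdeal i j Q ⊔ pointIdeal w ^ K))

/-- `m` is the multiplicity at the point `w` (normalised by `x_i = 1`, `y_j = 1`) of the curve with
ideal `Q`: the Hilbert–Samuel multiplicity `lim dim(O_w / 𝔪_w^K) / K` of its local ring at `w`
(it is `0` when `w` is not on the curve). -/
def IsMultiplicity (i : Fin (a + 1)) (j : Fin (b + 1)) (Q : Ideal (Coord a b))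
    (w : Index a b → ℂ) (m : ℝ) : Prop :=
  Tendsto (fun K : ℕ => (localLength i j Q w K : ℝ) / K) atTop (𝓝 m)

/-- `w` lists `n` points of the chart `x_i = 1`, `y_j = 1` of `X`. -/
def IsChartTuple {n : ℕ} (i : Fin (a + 1)) (j : Fin (b + 1)) (P : Ideal (Coord a b))
    (w : Fin n → Index a b → ℂ) : Prop :=
  ∀ q, w q (Sum.inl i) = 1 ∧ w q (Sum.inr j) = 1 ∧ ∀ F ∈ P, eval (w q) F = 0

/-- The value of a polynomial on `n`-tuples of points. -/
noncomputable def tupleValue {n : ℕ} (H : MvPolynomial (Fin n × Index a b) ℂ)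
    (w : Fin n → Index a b → ℂ) : ℂ := eval (fun p => w p.1 p.2) H

/-- The `n`-tuple `w` of points of the chart of `X` lies outside the countably many closed subsets
`H k = 0`. -/
def IsVeryGeneral {n : ℕ} (i : Fin (a + 1)) (j : Fin (b + 1)) (P : Ideal (Coord a b))
    (H : ℕ → MvPolynomial (Fin n × Index a b) ℂ) (w : Fin n → Index a b → ℂ) : Prop :=
  IsChartTuple i j P w ∧ ∀ k, tupleValue (H k) w ≠ 0

/-- The ratios `L · C / ∑ y_q mult_{w_q} C`, where `L = A - B`, over the integral curves `C ⊂ X`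
with `∑ y_q mult_{w_q} C > 0`; if all weights `y q` are positive, these are the integral curves
through at least one of the points `w q`.  The Seshadri constant of `L` at the points `w q` with the
weights `y q` is the infimum of this set. -/
def weightedRatios {n : ℕ} (i : Fin (a + 1)) (j : Fin (b + 1))
    (P : Ideal (Coord a b)) (w : Fin n → Index a b → ℂ) (y : Fin n → ℝ) : Set ℝ :=
  {x | ∃ (Q : Ideal (Coord a b)) (dA dB : ℝ) (m : Fin n → ℝ), P ≤ Q ∧ IsCurve Q dA dB ∧
    (∀ q, IsMultiplicity i j Q (w q) (m q)) ∧ 0 < ∑ q, y q * m q ∧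
    x = (dA - dB) / ∑ q, y q * m q}

/-- `∑ y_q²` -/
noncomputable def squareSum {n : ℕ} (y : Fin n → ℝ) : ℝ := ∑ q, y q ^ 2

/-- The weights `y` are spread out, with respect to the natural number `ρ`:
* `y` has at most `r` different values and `y_q² ≤ ∑ y² / (48 r)`, `y_q² ≤ ∑ y² / (64 ρ)` (and
  `y_q² ≤ ∑ y² / 256` if `ρ = 1`) for all `q`, for some `r`; or
* `y_q² ≤ ∑ y² / (16 ρ)` (and `y_q² ≤ ∑ y² / 64` if `ρ = 1`) and
  `y_q² ≤ (∑_{t : y_t = y_p} y_t²) / 6` for all `q, p` (every value of `y` is taken several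
  times); or
* all `y_q` are equal and `n ≥ 4 ρ` (and `n ≥ 9` if `ρ = 1`). -/
def IsSpread {n : ℕ} (ρ : ℕ) (y : Fin n → ℝ) : Prop :=
  (∃ r : ℕ, (Set.range y).ncard ≤ r ∧ ∀ q, 48 * r * y q ^ 2 ≤ squareSum y ∧
    64 * ρ * y q ^ 2 ≤ squareSum y ∧ (ρ = 1 → 256 * y q ^ 2 ≤ squareSum y)) ∨
  (∀ q, 16 * ρ * y q ^ 2 ≤ squareSum y ∧ (ρ = 1 → 64 * y q ^ 2 ≤ squareSum y) ∧
    ∀ p, 6 * y q ^ 2 ≤ ∑ t with y t = y p, y t ^ 2) ∨
  ((∀ q p, y q = y p) ∧ 4 * ρ ≤ n ∧ (ρ = 1 → 9 ≤ n))

/-- **The weighted Seshadri constants are `√(δ / ∑ y_q²)`**, for `n` points of the chart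
`x_i = y_j = 1`, for all positive weights `y` with the property `W`: there are countably many
polynomials `H_k` on `n`-tuples of points, not depending on the weights, such that some `n`-tuple of
points of the chart has `H_k ≠ 0` for all `k` (such tuples are called very general), and for every
such `n`-tuple the points are distinct and, for all positive weights `y` with the property `W`, the
infimum (greatest lower bound) of `L · C / ∑ y_q mult_{w_q} C` over the integral curves `C` through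
at least one of them is `√(δ / ∑ y_q²)`, and it is not attained by any curve `C` if `y` is a multiple
of a vector `c` of natural numbers such that `δ ∑ c_q²` is not a square. -/
def WeightedEquality (i : Fin (a + 1)) (j : Fin (b + 1)) (P : Ideal (Coord a b)) (δ n : ℕ)
    (W : (Fin n → ℝ) → Prop) : Prop :=
  ∃ H : ℕ → MvPolynomial (Fin n × Index a b) ℂ,
    (∃ w, IsVeryGeneral i j P H w) ∧
    ∀ w, IsVeryGeneral i j P H w → Function.Injective w ∧
      ∀ y : Fin n → ℝ, (∀ q, 0 < y q) → W y →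
        IsGLB (weightedRatios i j P w y) (√((δ : ℝ) / squareSum y)) ∧
        ∀ (t : ℝ) (c : Fin n → ℕ), 0 < t → (∀ q, y q = t * c q) →
          ¬ IsSquare (δ * ∑ q, c q ^ 2) →
          √((δ : ℝ) / squareSum y) ∉ weightedRatios i j P w y

/-- `K` is the function field of `X`, and `π` restricts the polynomials to the chart
`x_i = y_j = 1` of `X`. -/
structure IsFunctionField (i : Fin (a + 1)) (j : Fin (b + 1)) (P : Ideal (Coord a b))
    {K : Type} [Field K] [Algebra ℂ K] (π : Coord a b →ₐ[ℂ] K) : Prop where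
  kernel : ∀ f, π f = 0 ↔ f ∈ chartIdeal i j P
  fraction : ∀ z : K, ∃ f g, π g ≠ 0 ∧ z * π g = π f

section

variable {K : Type} [Field K] [Algebra ℂ K]

/-- The restrictions to the chart of the forms of bidegree `(u, v)`, i.e. `H⁰(u A + v B)` for
large `u, v`. -/
noncomputable def restricted (π : Coord a b →ₐ[ℂ] K) (u v : ℕ) : Submodule ℂ K :=
  (forms a b u v).map π.toLinearMap

/-- `ψ` (more precisely `ψ x_i^m y_j^{-m}`) is a global section of `m L = m A - m B`:
multiplication by `ψ` maps `H⁰(c A + (c + m) B)` to `H⁰((c + m) A + c B)` for some `c`. -/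
def IsSection (π : Coord a b →ₐ[ℂ] K) (m : ℕ) (ψ : K) : Prop :=
  ∃ c : ℕ, ∀ f ∈ restricted π c (c + m), ψ * f ∈ restricted π (c + m) c

/-- `g₁, g₂ ≠ 0` span a good pencil in `|k L|`: the only common zeros of `g₁` and `g₂` are
unavoidable ones (a rational section `ψ` of `m L` which becomes regular after multiplication by
`g₁`, and after multiplication by a power of `g₂`, is regular), `g₁ / g₂` is not constant and the
general member is irreducible (`ℂ(g₁ / g₂)` is algebraically closed in the function field). -/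
structure IsGoodPencil (π : Coord a b →ₐ[ℂ] K) (k : ℕ) (g₁ g₂ : K) : Prop where
  pos : 1 ≤ k
  section₁ : IsSection π k g₁
  section₂ : IsSection π k g₂
  ne_zero₁ : g₁ ≠ 0
  ne_zero₂ : g₂ ≠ 0
  base : ∀ m ψ, IsSection π (m + k) (g₁ * ψ) →
    (∃ N : ℕ, IsSection π (m + k * N) (g₂ ^ N * ψ)) → IsSection π m ψ
  nonconstant : Transcendental ℂ (g₁ / g₂)
  irreducible : ∀ z : K, IsAlgebraic (IntermediateField.adjoin ℂ {g₁ / g₂}) z →
    z ∈ IntermediateField.adjoin ℂ {g₁ / g₂}

end

/-- spread weights satisfy the toric input -/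
theorem aw_of_isSpread {n ρ : ℕ} (hρ : 1 ≤ ρ) {y : Fin n → ℝ} (hy : ∀ q, 0 < y q) (hn : 1 ≤ n)
    (h : IsSpread ρ y) : Pool.Agent.J6H77.WS.AW y
      (√(Pool.Agent.J6H77.WS.mass y) * √(ρ : ℝ)) 0 (ρ : ℝ) := by
  classical
  have hne : Nonempty (Fin n) := ⟨⟨0, hn⟩⟩
  obtain ⟨q0, hq0⟩ := Finite.exists_max y
  have hM0 : 0 < y q0 := hy q0
  have hρ1 : (1 : ℝ) ≤ ρ := by exact_mod_cast hρ
  have hmass : Pool.Agent.J6H77.WS.mass y = squareSum y := rfl
  rcases h with ⟨r, hr, h⟩ | h | ⟨h1, h2, h3⟩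
  · obtain ⟨h48, h64, h256⟩ := h q0
    have hcard : (Finset.univ.image y).card ≤ r := by
      have e : Set.range y = ((Finset.univ.image y : Finset ℝ) : Set ℝ) := by
        rw [Finset.coe_image, Finset.coe_univ, Set.image_univ]
      rw [e, Set.ncard_coe_finset] at hr
      exact hr
    have key := Pool.Agent.J6H57.WS.AW_few (ρ := (ρ : ℝ)) hρ1 hM0 y hy hq0 hcard h48 h64
      (fun h => by
        have hlt : ρ < 2 := by
          have h1 : (ρ : ℝ) < 2 := by linarith
          exact_mod_cast h1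
        have h1 : ρ = 1 := by omega
        have h2 := h256 h1
        rw [h1, Nat.cast_one, mul_one]
        exact h2)
    intro η hη
    obtain ⟨s0, hs0⟩ := key η hη
    exact ⟨s0, fun s hs α => hs0 s hs _ (fun q => Nat.floor_le (by
      have := hy q
      positivity)) α⟩
  · obtain ⟨h16, h64, -⟩ := h q0
    exact Pool.Agent.J6H77.WS.AW_final hρ y hy hM0 hq0 h16 h64 fun p => (h q0).2.2 p
  · have e : y = fun _ => y q0 := funext fun q => h1 q q0
    rw [e]
    exact Pool.Agent.J6H77.WS.AW_const hρ h2 h3 hM0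

/-- **Weighted Seshadri constants of nef divisors.** Let `X ⊂ P^a × P^b` be an integral surface such
that `L = A - B` is nef.  Then `L² = α - 2 β + γ ≥ 0`, some `x_i` and some `y_j` do not vanish on
`X`, and for every chart `x_i = y_j = 1` of `X`:
* if `L² = 0`, the Seshadri constant of `L` at `n ≥ 1` very general points is `0` for all positive
  real weights;
* if `L² > 0` and `|k L|` contains a good pencil, then at `n ≥ 1` very general points the Seshadri
  constant of `L` is `√(L² / ∑ y_q²)` for all positive real weights `y` which are spread out with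
  respect to `k² L²`, and it is not attained by any curve if `y` is a multiple of a vector `c` of
  natural numbers such that `L² ∑ c_q²` is not a square; the very general set does not depend on
  the weights;
* if `L² > 0` and `X` is normal, there is `k ≥ 1` such that `|k L|` contains a good pencil. -/
theorem result {a b : ℕ} (P : Ideal (Coord a b)) (α β γ : ℕ) (hX : IsSurface P α β γ)
    (hnef : IsNef P) :
    2 * β ≤ α + γ ∧ (∃ i j, xVar i ∉ P ∧ yVar j ∉ P) ∧
    ∀ i j, xVar i ∉ P → yVar j ∉ P →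
      (2 * β = α + γ → ∀ n, 1 ≤ n → WeightedEquality i j P 0 n (fun _ => True)) ∧
      (∃ (K : Type) (_ : Field K) (_ : Algebra ℂ K) (π : Coord a b →ₐ[ℂ] K),
        IsFunctionField i j P π) ∧
      ∀ (K : Type) [Field K] [Algebra ℂ K] (π : Coord a b →ₐ[ℂ] K), IsFunctionField i j P π →
        2 * β < α + γ →
        (IsNormal P → ∃ (k : ℕ) (g₁ g₂ : K), IsGoodPencil π k g₁ g₂) ∧
        ∀ (k : ℕ) (g₁ g₂ : K), IsGoodPencil π k g₁ g₂ → ∀ n : ℕ, 1 ≤ n →
          WeightedEquality i j P (α + γ - 2 * β) n (IsSpread (k ^ 2 * (α + γ - 2 * β))) := by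
  have hX' : Pool.Agent.TH279.GR.Surf P α β γ :=
    ⟨hX.prime, hX.bihomogeneous, hX.growth, by exact_mod_cast hX.pos⟩
  have hcurve : ∀ (Q : Ideal (Coord a b)) (dA dB : ℝ), Pool.Agent.TH279.GR.Curv Q dA dB ↔
      IsCurve Q dA dB := fun Q dA dB =>
    ⟨fun h => ⟨h.prime, h.hom, h.growth, h.pos⟩,
      fun h => ⟨h.prime, h.bihomogeneous, h.growth, h.pos⟩⟩
  have hnef' : Pool.Agent.TH279.GR.Nef P := fun Q dA dB hPQ hQ =>
    hnef Q dA dB hPQ ((hcurve Q dA dB).1 hQ)
  have h0 := Pool.Agent.Y799.SE.sq_nonneg' hX' hnef'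
  refine ⟨h0, Pool.Agent.TH306.N4.exists_ij hX', fun i j hi hj => ?_⟩
  have hset : ∀ {n : ℕ} (w : Fin n → Index a b → ℂ) (y : Fin n → ℝ),
      weightedRatios i j P w y = Pool.Agent.J6H77.WS.ratiosW i j P w y := by
    intro n w y
    ext x
    constructor
    · rintro ⟨Q, dA, dB, m, hPQ, hQ, hm, h0, h⟩
      exact ⟨Q, dA, dB, m, hPQ, (hcurve Q dA dB).2 hQ, hm, h0, h⟩
    · rintro ⟨Q, dA, dB, m, hPQ, hQ, hm, h0, h⟩
      exact ⟨Q, dA, dB, m, hPQ, (hcurve Q dA dB).1 hQ, hm, h0, h⟩
  refine ⟨fun hL n hn => ?_, ?_, fun K _ _ π hπ hL => ?_⟩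
  · obtain ⟨H, h1, h2⟩ := Pool.Agent.J6H77.WS.equalityW_zero hX' hnef' hL hn hi hj
    refine ⟨H, h1, fun w hw => ?_⟩
    obtain ⟨h3, h4⟩ := h2 w hw.1 hw.2
    refine ⟨h3, fun y hy _ => ⟨?_, fun t c _ _ hsq => absurd ⟨0, by simp⟩ hsq⟩⟩
    rw [hset w y, Nat.cast_zero, zero_div, Real.sqrt_zero]
    exact h4 y hy
  · obtain ⟨K, _, _, π, hπ⟩ := Pool.Agent.TH611.M5.exists_Mod hX'.prime hX'.hom hi hj
    exact ⟨K, _, _, π, hπ.ker, hπ.frac⟩
  · have hM : Pool.Agent.TH306.N4.Mod P i j π :=
      ⟨hX.prime, hX.bihomogeneous, hi, hj, hπ.kernel, hπ.fraction⟩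
    have hδ : (α + γ - 2 * β) + 2 * β = α + γ := by omega
    have hδ1 : 1 ≤ α + γ - 2 * β := by omega
    refine ⟨fun hN => ?_, fun k g₁ g₂ hP n hn => ?_⟩
    · obtain ⟨k, g₁, g₂, hP⟩ := Pool.Agent.Y799.SE.exists_pencil hX' hN hnef' hδ hδ1 hM
      exact ⟨k, g₁, g₂, hP.hk, hP.sec₁, hP.sec₂, hP.ne₁, hP.ne₂, hP.sat, hP.tr, hP.closed⟩
    · have hP' : Pool.Agent.TH306.N4.Pencil π k g₁ g₂ :=
        ⟨hP.pos, hP.section₁, hP.section₂, hP.ne_zero₁, hP.ne_zero₂, hP.base, hP.nonconstant,
          hP.irreducible⟩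
      obtain ⟨H, h1, h2⟩ := Pool.Agent.J6H77.WS.equalityW hX' hnef' hδ hδ1 hi hj hM hP' n hn
      refine ⟨H, h1, fun w hw => ?_⟩
      obtain ⟨h3, h4⟩ := h2 w hw.1 hw.2
      refine ⟨h3, fun y hy hW => ?_⟩
      have hρ : 1 ≤ k ^ 2 * (α + γ - 2 * β) := by
        have := hP.pos
        exact Nat.one_le_iff_ne_zero.2 (by positivity)
      rw [hset w y]
      exact h4 y hy (aw_of_isSpread hρ hy hn hW)

end Pool.Agent.Results.MP_ed661f_ag.WeightedPoints
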